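import Pool.Agent.L5helper77.Edge9

/-!
# Truncated Euler products on the line `Re s = 1` and zero-free half-planes

`E y s` is the product of `1 - p^{-s}` over the primes `p ≤ y`.  We compare the modulus of
`ζ(1 + it) E y (1 + it)` with `1` for `y` between two powers of `t`.  A power saving in ONE of the two
inequalities `|ζ E| ≤ 1 + γ^{-δ}`, `|ζ E| ≥ 1 - γ^{-δ}`, for ONE `y ∈ [γ^ε, γ^A]` and all `t` within
`γ^η` of `γ`, excludes the zeros of height `γ` with real part at least `1 - c min(δ, ε, η) / (1 + A)`;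
conversely the absence of zeros near `1 + it` gives `ζ E = 1 + O(t^{-δ})` for all
`t^ε ≤ y ≤ e^t`.
-/

set_option autoImplicit false

open Filter Topology Set MeasureTheory

namespace Pool.Agent.Results.MP_5a4862_nt.OneSidedEulerProduct

/-- The truncated product `∏_{p ≤ y} (1 - p^{-s})`, over the primes `p ≤ y`. -/
noncomputable def E (y : ℝ) (s : ℂ) : ℂ :=
  ∏ p ∈ (Finset.Icc 1 ⌊y⌋₊).filter Nat.Prime, (1 - (p : ℂ) ^ (-s))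

/-- The product `ζ(1 + it) ∏_{p ≤ y} (1 - p^{-1-it})`. -/
noncomputable def R (y t : ℝ) : ℂ :=
  riemannZeta (1 + t * Complex.I) * E y (1 + t * Complex.I)

theorem E_eq (y : ℝ) (s : ℂ) : E y s = Pool.Agent.L5helper77.Edge.E y s := by
  unfold E Pool.Agent.L5helper77.Edge.E Pool.Agent.L5helper77.Edge.P
  refine Finset.prod_congr ?_ fun _ _ => rfl
  ext p
  simp only [Finset.mem_filter, Finset.mem_Icc, Nat.mem_primesBelow]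
  constructor
  · rintro ⟨⟨h1, h2⟩, h3⟩
    exact ⟨by omega, h3⟩
  · rintro ⟨h1, h2⟩
    exact ⟨⟨h2.one_lt.le, by omega⟩, h2⟩

/-- **Truncated Euler products on the edge and zero-free half-planes.**
(1) Converse, one-sided and local: a power saving in one of the two inequalities, for one `y` and in a
short interval around `γ`, gives a zero-free segment at height `γ`.
(2) Direct, local.
(3) The equivalence with the existence of a zero-free half-plane.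
(4) Unconditionally the exceptional `t` have small measure. -/
theorem result :
    (∃ c : ℝ, 0 < c ∧ ∀ ε A η δ : ℝ, 0 < ε → ε ≤ A → 0 < η → η < 1 → 0 < δ →
      ∃ γ₀ : ℝ, ∀ γ : ℝ, γ₀ ≤ γ → ∀ y : ℝ, γ ^ ε ≤ y → y ≤ γ ^ A →
        ((∀ t : ℝ, |t - γ| ≤ γ ^ η → ‖R y t‖ ≤ 1 + γ ^ (-δ)) ∨
          (∀ t : ℝ, |t - γ| ≤ γ ^ η → 1 - γ ^ (-δ) ≤ ‖R y t‖)) →
        ∀ s : ℂ, s.im = γ → 1 - c * min δ (min ε η) / (1 + A) ≤ s.re → riemannZeta s ≠ 0) ∧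
    (∀ κ ε η : ℝ, 0 < κ → κ ≤ 1 / 4 → 0 < ε → ε ≤ 1 → 0 < η → η < 1 →
      ∃ t₀ : ℝ, ∀ t : ℝ, t₀ ≤ t →
        (∀ s : ℂ, 1 - κ ≤ s.re → |s.im - t| ≤ t ^ η → riemannZeta s ≠ 0) →
        ∀ y : ℝ, t ^ ε ≤ y → y ≤ Real.exp t → ‖R y t - 1‖ ≤ t ^ (-(ε * η * κ / 8))) ∧
    (∀ ε A η : ℝ, 0 < ε → ε ≤ A → 0 < η → η < 1 → List.TFAE [
      ∃ σ₀ : ℝ, 1 / 2 < σ₀ ∧ σ₀ < 1 ∧ ∀ s : ℂ, σ₀ ≤ s.re → riemannZeta s ≠ 0,
      ∃ δ : ℝ, 0 < δ ∧ ∃ t₀ : ℝ, ∀ t : ℝ, t₀ ≤ t → ∀ y : ℝ, t ^ ε ≤ y → y ≤ Real.exp t →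
        ‖R y t - 1‖ ≤ t ^ (-δ),
      ∃ δ : ℝ, 0 < δ ∧ ∃ γ₀ : ℝ, ∀ γ : ℝ, γ₀ ≤ γ → ∃ y : ℝ, γ ^ ε ≤ y ∧ y ≤ γ ^ A ∧
        ∀ t : ℝ, |t - γ| ≤ γ ^ η → ‖R y t‖ ≤ 1 + γ ^ (-δ),
      ∃ δ : ℝ, 0 < δ ∧ ∃ γ₀ : ℝ, ∀ γ : ℝ, γ₀ ≤ γ → ∃ y : ℝ, γ ^ ε ≤ y ∧ y ≤ γ ^ A ∧
        ∀ t : ℝ, |t - γ| ≤ γ ^ η → 1 - γ ^ (-δ) ≤ ‖R y t‖]) ∧
    (∀ ε η : ℝ, 0 < ε → 0 < η → ∃ δ : ℝ, 0 < δ ∧ ∃ C : ℝ, ∀ T : ℝ, 1 ≤ T →
      volume {t : ℝ | T ≤ t ∧ t ≤ 2 * T ∧ ∃ y : ℝ, t ^ ε ≤ y ∧ y ≤ Real.exp t ∧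
        t ^ (-δ) < ‖R y t - 1‖} ≤ ENNReal.ofReal (C * T ^ η)) := by
  have hR : ∀ y t : ℝ, R y t = riemannZeta (1 + t * Complex.I) *
      Pool.Agent.L5helper77.Edge.E y (1 + t * Complex.I) := fun y t => by
    unfold R
    rw [E_eq]
  simp only [hR]
  refine ⟨?_, ?_, ?_, ?_⟩
  · obtain ⟨c, hc, _, h⟩ := Pool.Agent.L5helper77.Edge.converse
    refine ⟨c, hc, fun ε A η δ h1 h2 h3 h4 h5 => ?_⟩
    exact eventually_atTop.1 (h ε A η δ h1 h2 h3 h4 h5)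
  · intro κ ε η h1 h2 h3 h4 h5 h6
    exact eventually_atTop.1 (Pool.Agent.L5helper77.Edge.direct h1 h2 h3 h4 h5 h6)
  · intro ε A η h1 h2 h3 h4
    exact Pool.Agent.L5helper77.Edge.tfae h1 h2 h3 h4
  · intro ε η h1 h2
    obtain ⟨δ, h3, C, _, h4⟩ := Pool.Agent.L5helper77.Edge.few h1 h2
    exact ⟨δ, h3, C, h4⟩

end Pool.Agent.Results.MP_5a4862_nt.OneSidedEulerProduct
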